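import Pool.Agent.H779R2.To.TDef

set_option autoImplicit false

namespace Pool.Agent.H779R2.Fi

open Pool.Agent.H779R2.To
open Filter Topology

/-- A group `Λ` of homeomorphisms of the product `V × Z` acting by conformal affine maps
`v ↦ R a v + t a` on the vector space `V` and by homeomorphisms `σ a` on the stable leaf `Z`;
a map `(A, G)`, with `A` conformal and expanding, normalizing `Λ`; a relation `St u` (one step in
the stable leaf over `u`) which is contracted by `(A, G)`. -/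
structure RDat (V Z : Type*) [NormedAddCommGroup V] [NormedSpace ℝ V] [MetricSpace Z] where
  Λ : Subgroup ((V × Z) ≃ₜ (V × Z))
  R : Λ → V →ₗ[ℝ] V
  t : Λ → V
  σ : Λ → Z → Z
  act_eq : ∀ (a : Λ) (y : V × Z), (a : (V × Z) ≃ₜ (V × Z)) y = (R a y.1 + t a, σ a y.2)
  b : V →ₗ[ℝ] V →ₗ[ℝ] ℝ
  b_symm : ∀ v w, b v w = b w v
  b_pos : ∀ v, v ≠ 0 → 0 < b v v
  conf : ∀ a : Λ, ∃ κ : ℝ, 0 < κ ∧ ∀ v w, b (R a v) (R a w) = κ * b v w
  free : ∀ (a : Λ) (v : V), R a v + t a = v → a = 1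
  A : V ≃L[ℝ] V
  G : Z ≃ₜ Z
  A_symm_le : ∀ v, ‖A.symm v‖ ≤ 1 / 2 * ‖v‖
  A_conf : ∃ κ : ℝ, 0 < κ ∧ ∀ v w, b (A v) (A w) = κ * b v w
  norm : ∀ a : (V × Z) ≃ₜ (V × Z),
    a ∈ Λ ↔ (A.toHomeomorph.prodCongr G) * a * (A.toHomeomorph.prodCongr G)⁻¹ ∈ Λ
  proper : ∀ K K' : Set (V × Z), IsCompact K → IsCompact K' →
    {a : Λ | ∃ y ∈ K, (a : (V × Z) ≃ₜ (V × Z)) y ∈ K'}.Finite
  cocompact : ∃ K : Set (V × Z), IsCompact K ∧
    ∀ y : V × Z, ∃ a : Λ, (a : (V × Z) ≃ₜ (V × Z)) y ∈ K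
  St : V → Z → Z → Prop
  st_refl : ∀ u s, St u s s
  st_symm : ∀ u s s', St u s s' → St u s' s
  st_act : ∀ (a : Λ) u s s', St u s s' → St (R a u + t a) (σ a s) (σ a s')
  st_two : ∀ u s s' s'', St u s s' → St u s' s'' → St (A u) (G s) (G s'')
  st_cpt : ∀ K : Set (V × Z), IsCompact K → ∃ K' : Set (V × Z), IsCompact K' ∧
    ∀ u s s', (u, s) ∈ K → St u s s' → (u, s') ∈ K'
  st_chain : ∀ (B : Set V) (K : Set Z), IsCompact B → IsCompact K → ∃ m : ℕ,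
    ∀ u ∈ B, ∀ s ∈ K, ∀ s' ∈ K, Chn St u m s s'
  st_exp : ∀ u s s', (∀ n : ℕ, St (A.symm^[n] u) (G.symm^[n] s) (G.symm^[n] s')) → s = s'

variable {V Z : Type*} [NormedAddCommGroup V] [NormedSpace ℝ V] [MetricSpace Z]

/-- The normalizing map. -/
def RDat.gt (D : RDat V Z) : (V × Z) ≃ₜ (V × Z) := D.A.toHomeomorph.prodCongr D.G

theorem RDat.gt_apply (D : RDat V Z) (y : V × Z) : D.gt y = (D.A y.1, D.G y.2) := rfl

theorem RDat.gt_symm_apply (D : RDat V Z) (y : V × Z) :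
    D.gt.symm y = (D.A.symm y.1, D.G.symm y.2) := rfl

/-- `f` is finitely covered by a hyperbolic toral automorphism `A`: there is a covering map with
finite fibres from the torus onto the space which semiconjugates `A` to `f`. -/
def IsFinToral {X : Type*} [TopologicalSpace X] (f : X → X) : Prop :=
  ∃ (m : ℕ) (A : Matrix (Fin m) (Fin m) ℤ) (q : (Fin m → AddCircle (1 : ℝ)) → X),
    IsUnit A.det ∧ HypMat A ∧ IsCoveringMap q ∧ Function.Surjective q ∧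
      (∀ x, (q ⁻¹' {x}).Finite) ∧ ∀ x, q (fun i => ∑ j, A i j • x j) = f (q x)

end Pool.Agent.H779R2.Fi
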