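import Pool.Agent.H779R2.Fi.RDef

set_option autoImplicit false

namespace Pool.Agent.H779R2.Fi

open Pool.Agent.H779R2.To
open Filter Topology

variable {V Z : Type*} [NormedAddCommGroup V] [NormedSpace ℝ V] [MetricSpace Z]

/-- ZA: the algebra of the action.  From `act_eq`, evaluating products at points with first
coordinate `0` and arbitrary. -/
theorem RDat.alg [Nonempty Z] (D : RDat V Z) :
    (∀ (a b : D.Λ) (v : V), D.R (a * b) v = D.R a (D.R b v)) ∧
    (∀ a b : D.Λ, D.t (a * b) = D.R a (D.t b) + D.t a) ∧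
    (∀ (a b : D.Λ) (s : Z), D.σ (a * b) s = D.σ a (D.σ b s)) ∧
    (∀ v : V, D.R 1 v = v) ∧ D.t 1 = 0 ∧ (∀ s, D.σ 1 s = s) ∧
    (∀ a b : D.Λ, (∀ v, D.R a v = D.R b v) → D.t a = D.t b → a = b) := by
  obtain ⟨z₀⟩ := ‹Nonempty Z›
  have hmul : ∀ (a b : D.Λ) (v : V) (s : Z),
      ((D.R (a * b) v + D.t (a * b), D.σ (a * b) s) : V × Z) =
        (D.R a (D.R b v + D.t b) + D.t a, D.σ a (D.σ b s)) := by
    intro a b v s
    have h1 := D.act_eq (a * b) (v, s)
    have h2 := D.act_eq b (v, s)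
    have h3 := D.act_eq a (D.R b v + D.t b, D.σ b s)
    have h4 : ((a * b : D.Λ) : (V × Z) ≃ₜ (V × Z)) (v, s) =
        (a : (V × Z) ≃ₜ (V × Z)) ((b : (V × Z) ≃ₜ (V × Z)) (v, s)) := rfl
    rw [h4, h2, h3] at h1
    exact h1.symm
  have hone : ∀ (v : V) (s : Z), ((D.R 1 v + D.t 1, D.σ 1 s) : V × Z) = (v, s) := by
    intro v s
    exact (D.act_eq 1 (v, s)).symm
  have t_mul : ∀ a b : D.Λ, D.t (a * b) = D.R a (D.t b) + D.t a := by
    intro a b
    have h := congrArg Prod.fst (hmul a b 0 z₀)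
    simpa using h
  have R_mul : ∀ (a b : D.Λ) (v : V), D.R (a * b) v = D.R a (D.R b v) := by
    intro a b v
    have h : D.R (a * b) v + D.t (a * b) = D.R a (D.R b v + D.t b) + D.t a :=
      congrArg Prod.fst (hmul a b v z₀)
    rw [t_mul, map_add, add_assoc] at h
    exact add_right_cancel h
  have t_one : D.t 1 = 0 := by
    have h := congrArg Prod.fst (hone 0 z₀)
    simpa using h
  have R_one : ∀ v : V, D.R 1 v = v := by
    intro v
    have h : D.R 1 v + D.t 1 = v := congrArg Prod.fst (hone v z₀)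
    rw [t_one, add_zero] at h
    exact h
  refine ⟨R_mul, t_mul, fun a b s => congrArg Prod.snd (hmul a b 0 s), R_one, t_one,
    fun s => congrArg Prod.snd (hone 0 s), ?_⟩
  intro a b _ ht
  have h1 : b⁻¹ * a = 1 := by
    apply D.free _ 0
    rw [map_zero, zero_add, t_mul, ht, ← t_mul, inv_mul_cancel, t_one]
  exact (inv_mul_eq_one.1 h1).symm

end Pool.Agent.H779R2.Fi
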