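import Pool.Agent.H779R2.Fi.RDef
import Pool.Agent.H779R2.Fi.RA

set_option autoImplicit false

namespace Pool.Agent.H779R2.Fi

open Pool.Agent.H779R2.To
open Filter Topology

variable {V Z : Type*} [NormedAddCommGroup V] [NormedSpace ℝ V] [MetricSpace Z]

/-- ZB: the linear parts are isometries of `b`.  If the conformal factor `κ` of `R a` is not `1`,
then `id - R a` is injective (`R a v = v` gives `b v v = κ b v v`), hence surjective, so
`R a v + t a = v` has a solution and `a = 1` by `free`; but `R 1 = id` (`alg`). -/
theorem RDat.iso [Nonempty Z] [FiniteDimensional ℝ V] (D : RDat V Z) (a : D.Λ) (v w : V) :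
    D.b (D.R a v) (D.R a w) = D.b v w := by
  sorry

end Pool.Agent.H779R2.Fi
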