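import Pool.Agent.H779R2.Fi.RDef
import Pool.Agent.H779R2.Fi.RA
import Pool.Agent.H779R2.Fi.RB

set_option autoImplicit false

namespace Pool.Agent.H779R2.Fi

open Pool.Agent.H779R2.To
open Filter Topology

variable {V Z : Type*} [NormedAddCommGroup V] [NormedSpace ℝ V] [MetricSpace Z]

/-- ZD1: the affine map `v ↦ R a (A^j v) + t a` of `V` has a fixed point, for `j ≥ 1`.  The
conformal factor `κ` of `A` is `> 1` (if `v ≠ 0`, `b (A⁻ⁿ v) (A⁻ⁿ v) = κ⁻ⁿ b v v → 0` by
`A_symm_le` and continuity of `b` in finite dimension), so if `R a (A^j v) = v` then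
`κ^j b v v = b v v` (`iso`), hence `v = 0`; the linear map `id - R a ∘ A^j` is injective, hence
surjective. -/
theorem RDat.fix_V [Nonempty Z] [FiniteDimensional ℝ V] (D : RDat V Z) (a : D.Λ) (j : ℕ)
    (hj : 1 ≤ j) : ∃ v : V, D.R a (D.A^[j] v) + D.t a = v := by
  classical
  obtain ⟨κ, hκ0, hκ⟩ := D.A_conf
  -- continuity of the quadratic form
  let B : V →ₗ[ℝ] (V →L[ℝ] ℝ) :=
    (LinearMap.toContinuousLinearMap : (V →ₗ[ℝ] ℝ) ≃ₗ[ℝ] (V →L[ℝ] ℝ)).toLinearMap ∘ₗ D.b
  have hB : Continuous fun v => B v := B.continuous_of_finiteDimensional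
  have hBc : Continuous fun v => B v v := hB.clm_apply continuous_id
  have hBe : ∀ v, B v v = D.b v v := fun v => rfl
  have hbc : Continuous fun v => D.b v v := hBc
  -- powers of `A`
  have hpow : ∀ (n : ℕ) (v : V), D.b (D.A^[n] v) (D.A^[n] v) = κ ^ n * D.b v v := by
    intro n
    induction n with
    | zero => intro v; simp
    | succ n ih =>
      intro v
      rw [Function.iterate_succ_apply', hκ, ih, pow_succ]
      ring
  have hsym : ∀ w, D.b w w = κ * D.b (D.A.symm w) (D.A.symm w) := by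
    intro w
    have := hκ (D.A.symm w) (D.A.symm w)
    simpa using this
  have hinj : ∀ v : V, D.R a (D.A^[j] v) = v → v = 0 := by
    intro v hv
    by_contra hne
    have hpos := D.b_pos v hne
    have h1 : D.b v v = κ ^ j * D.b v v := by
      calc D.b v v = D.b (D.R a (D.A^[j] v)) (D.R a (D.A^[j] v)) := by rw [hv]
        _ = D.b (D.A^[j] v) (D.A^[j] v) := D.iso a _ _
        _ = κ ^ j * D.b v v := hpow j v
    have h2 : κ ^ j = 1 := by
      have : (κ ^ j - 1) * D.b v v = 0 := by linarith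
      rcases mul_eq_zero.1 this with h | h
      · linarith
      · exact absurd h hpos.ne'
    have h3 : κ = 1 := (pow_eq_one_iff_of_nonneg hκ0.le (by omega)).1 h2
    have h4 : ∀ n : ℕ, D.b (D.A.symm^[n] v) (D.A.symm^[n] v) = D.b v v := by
      intro n
      induction n with
      | zero => simp
      | succ n ih =>
        rw [Function.iterate_succ_apply']
        have := hsym (D.A.symm^[n] v)
        rw [h3, one_mul] at this
        rw [← this, ih]
    have h5 : ∀ n : ℕ, ‖D.A.symm^[n] v‖ ≤ (1 / 2) ^ n * ‖v‖ := by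
      intro n
      induction n with
      | zero => simp
      | succ n ih =>
        rw [Function.iterate_succ_apply', pow_succ]
        have := D.A_symm_le (D.A.symm^[n] v)
        nlinarith [norm_nonneg (D.A.symm^[n] v)]
    have h6 : Tendsto (fun n : ℕ => D.A.symm^[n] v) atTop (𝓝 0) := by
      rw [tendsto_zero_iff_norm_tendsto_zero]
      refine squeeze_zero (fun n => norm_nonneg _) h5 ?_
      have := (tendsto_pow_atTop_nhds_zero_of_lt_one (r := (1 / 2 : ℝ)) (by norm_num)
        (by norm_num)).mul_const ‖v‖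
      simpa using this
    have h7 : Tendsto (fun n : ℕ => D.b (D.A.symm^[n] v) (D.A.symm^[n] v)) atTop
        (𝓝 (D.b 0 0)) := (hbc.tendsto 0).comp h6
    have h8 : D.b (0 : V) 0 = D.b v v := by
      refine tendsto_nhds_unique h7 ?_
      simp only [h4]
      exact tendsto_const_nhds
    simp at h8
    exact hpos.ne h8
  let L : V →ₗ[ℝ] V := LinearMap.id - D.R a ∘ₗ ((D.A : V →ₗ[ℝ] V) ^ j)
  have hA : ∀ v, ((D.A : V →ₗ[ℝ] V) ^ j) v = D.A^[j] v := by
    intro v
    rw [Module.End.pow_apply]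
    rfl
  have hLi : Function.Injective L := by
    rw [← LinearMap.ker_eq_bot, LinearMap.ker_eq_bot']
    intro v hv
    apply hinj
    have : v - D.R a (((D.A : V →ₗ[ℝ] V) ^ j) v) = 0 := hv
    rw [hA] at this
    exact (sub_eq_zero.1 this).symm
  obtain ⟨v, hv⟩ := (LinearMap.injective_iff_surjective.1 hLi) (D.t a)
  refine ⟨v, ?_⟩
  have : v - D.R a (((D.A : V →ₗ[ℝ] V) ^ j) v) = D.t a := hv
  rw [hA] at this
  rw [← this]
  abel

end Pool.Agent.H779R2.Fi
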