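import Mathlib

set_option autoImplicit false

namespace Pool.Agent.H779R2.Fi

open Filter Topology

theorem RH1_pow {n : ℕ} (q : Matrix (Fin n) (Fin n) ℝ) (hq : q * q.transpose = 1) (m : ℕ) :
    q ^ m * (q ^ m).transpose = 1 := by
  induction m with
  | zero => simp
  | succ m ih =>
    rw [pow_succ, Matrix.transpose_mul]
    calc q ^ m * q * (q.transpose * (q ^ m).transpose)
        = q ^ m * (q * q.transpose) * (q ^ m).transpose := by
          simp only [Matrix.mul_assoc]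
      _ = 1 := by rw [hq, Matrix.mul_one, ih]

theorem RH1_iso {n : ℕ} (p : Matrix (Fin n) (Fin n) ℝ) (hp : p * p.transpose = 1)
    (x : Fin n → ℝ) : (p.mulVec x) ⬝ᵥ (p.mulVec x) = x ⬝ᵥ x := by
  have hp' : p.transpose * p = 1 := mul_eq_one_comm.mp hp
  rw [Matrix.dotProduct_mulVec, ← Matrix.mulVec_transpose, Matrix.mulVec_mulVec, hp',
    Matrix.one_mulVec]

theorem RH1_sq {n : ℕ} (p : Matrix (Fin n) (Fin n) ℝ) (hp : p * p.transpose = 1)
    (ht : (n : ℝ) - 1 / 4 ≤ p.trace) : ∑ i, ∑ j, ((p - 1) i j) ^ 2 ≤ 1 / 2 := by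
  have h1 : ∑ i, ∑ j, ((p - 1) i j) ^ 2 = ((p - 1) * (p - 1).transpose).trace := by
    unfold Matrix.trace
    apply Finset.sum_congr rfl
    intro i _
    rw [Matrix.diag_apply, Matrix.mul_apply]
    apply Finset.sum_congr rfl
    intro j _
    rw [Matrix.transpose_apply, sq]
  have h2 : (p - 1) * (p - 1).transpose = 1 - p - p.transpose + 1 := by
    rw [Matrix.transpose_sub, Matrix.transpose_one, sub_mul, mul_sub, mul_sub, hp]
    simp only [mul_one, one_mul]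
    abel
  rw [h1, h2, Matrix.trace_add, Matrix.trace_sub, Matrix.trace_sub, Matrix.trace_transpose,
    Matrix.trace_one, Fintype.card_fin]
  linarith

theorem RH1_near {n : ℕ} (p : Matrix (Fin n) (Fin n) ℝ) (hp : p * p.transpose = 1)
    (ht : (n : ℝ) - 1 / 4 ≤ p.trace) (v : Fin n → ℝ) :
    (p.mulVec v - v) ⬝ᵥ (p.mulVec v - v) ≤ 1 / 2 * (v ⬝ᵥ v) := by
  have h0 : p.mulVec v - v = (p - 1).mulVec v := by
    rw [Matrix.sub_mulVec, Matrix.one_mulVec]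
  have hvv : v ⬝ᵥ v = ∑ j, v j ^ 2 := by
    unfold dotProduct
    apply Finset.sum_congr rfl
    intro j _
    rw [sq]
  have hv0 : 0 ≤ v ⬝ᵥ v := by
    rw [hvv]
    exact Finset.sum_nonneg (fun j _ => sq_nonneg _)
  rw [h0]
  have h1 : ((p - 1).mulVec v) ⬝ᵥ ((p - 1).mulVec v) ≤
      (∑ i, ∑ j, ((p - 1) i j) ^ 2) * (v ⬝ᵥ v) := by
    rw [Finset.sum_mul]
    unfold dotProduct at *
    apply Finset.sum_le_sum
    intro i _
    have h2 := Finset.sum_mul_sq_le_sq_mul_sq Finset.univ (fun j => (p - 1) i j) v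
    rw [hvv]
    calc (p - 1).mulVec v i * (p - 1).mulVec v i = (∑ j, (p - 1) i j * v j) ^ 2 := by
          rw [sq]
          rfl
      _ ≤ _ := h2
  exact h1.trans (mul_le_mul_of_nonneg_right (RH1_sq p hp ht) hv0)

theorem RH1_inner {n : ℕ} (p : Matrix (Fin n) (Fin n) ℝ) (hp : p * p.transpose = 1)
    (ht : (n : ℝ) - 1 / 4 ≤ p.trace) (v : Fin n → ℝ) :
    3 / 4 * (v ⬝ᵥ v) ≤ (p.mulVec v) ⬝ᵥ v := by
  have h1 := RH1_near p hp ht v
  have h2 := RH1_iso p hp v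
  rw [sub_dotProduct, dotProduct_sub, dotProduct_sub, h2, dotProduct_comm v (p.mulVec v)] at h1
  linarith

/-- ZH1: no small subgroups, in terms of the trace.  For orthogonal `q`,
`∑ i j, ((q^m - 1) i j)^2 = 2 (n - tr (q^m)) ≤ 1 / 2`, so `‖q^m v - v‖² ≤ ‖v‖² / 2` (Euclidean
norm, Cauchy-Schwarz) and hence `⟪q^m v, v⟫ ≥ 3/4 ‖v‖²`, as `‖q^m v‖ = ‖v‖`.  If `q u ≠ u` put
`v = q u - u`; `∑_{m < N} q^m v = q^N u - u` is bounded by `2 ‖u‖`, but its scalar product with `v`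
is `≥ 3/4 N ‖v‖²`; contradiction for large `N`. -/
theorem no_small {n : ℕ} (q : Matrix (Fin n) (Fin n) ℝ) (hq : q * q.transpose = 1)
    (h : ∀ m : ℕ, (n : ℝ) - 1 / 4 ≤ (q ^ m).trace) : q = 1 := by
  apply Matrix.mulVec_injective
  funext u
  rw [Matrix.one_mulVec]
  by_contra hne
  obtain ⟨v, hv⟩ : ∃ v, v = q.mulVec u - u := ⟨_, rfl⟩
  have hv0 : v ≠ 0 := by
    rw [hv]
    exact sub_ne_zero.mpr hne
  have hvn : 0 ≤ v ⬝ᵥ v := by
    unfold dotProduct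
    exact Finset.sum_nonneg (fun j _ => mul_self_nonneg _)
  have hvp : 0 < v ⬝ᵥ v := lt_of_le_of_ne hvn
    (fun h0 => hv0 (dotProduct_self_eq_zero.mp h0.symm))
  have htel : ∀ N : ℕ, ∑ m ∈ Finset.range N, (q ^ m).mulVec v = (q ^ N).mulVec u - u := by
    intro N
    have h1 : ∀ m ∈ Finset.range N, (q ^ m).mulVec v =
        (q ^ (m + 1)).mulVec u - (q ^ m).mulVec u := by
      intro m _
      rw [hv, Matrix.mulVec_sub, Matrix.mulVec_mulVec, ← pow_succ]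
    rw [Finset.sum_congr rfl h1, Finset.sum_range_sub (fun m => (q ^ m).mulVec u), pow_zero,
      Matrix.one_mulVec]
  have hbig : ∀ N : ℕ, (N : ℝ) * (3 / 4 * (v ⬝ᵥ v)) ≤ ((q ^ N).mulVec u - u) ⬝ᵥ v := by
    intro N
    rw [← htel, sum_dotProduct]
    have h1 : ∑ _m ∈ Finset.range N, 3 / 4 * (v ⬝ᵥ v) ≤
        ∑ m ∈ Finset.range N, ((q ^ m).mulVec v) ⬝ᵥ v :=
      Finset.sum_le_sum (fun m _ => RH1_inner (q ^ m) (RH1_pow q hq m) (h m) v)
    rw [Finset.sum_const, Finset.card_range, nsmul_eq_mul] at h1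
    exact h1
  have hsmall : ∀ N : ℕ, ((q ^ N).mulVec u - u) ⬝ᵥ v ≤ (1 / 2 * (u ⬝ᵥ u) + v ⬝ᵥ v) / 2 := by
    intro N
    have h1 := RH1_near (q ^ N) (RH1_pow q hq N) (h N) u
    obtain ⟨w, hw⟩ : ∃ w, w = (q ^ N).mulVec u - u := ⟨_, rfl⟩
    rw [← hw] at h1 ⊢
    have h2 : 0 ≤ (w - v) ⬝ᵥ (w - v) := by
      unfold dotProduct
      exact Finset.sum_nonneg (fun j _ => mul_self_nonneg _)
    rw [sub_dotProduct, dotProduct_sub, dotProduct_sub, dotProduct_comm v w] at h2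
    linarith
  obtain ⟨N, hN⟩ := exists_nat_gt ((1 / 2 * (u ⬝ᵥ u) + v ⬝ᵥ v) / 2 / (3 / 4 * (v ⬝ᵥ v)))
  rw [div_lt_iff₀ (by positivity)] at hN
  have h1 := hbig N
  have h2 := hsmall N
  linarith

end Pool.Agent.H779R2.Fi
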