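import Mathlib

set_option autoImplicit false

namespace Pool.Agent.H779R2.Fi

open Filter Topology

private lemma rh2_entry_le {n : ℕ} (q : Matrix (Fin n) (Fin n) ℝ) (hq : q * q.transpose = 1)
    (i k : Fin n) : |q i k| ≤ 1 := by
  have h1 : ∑ l, q i l * q i l = 1 := by
    have := congr_fun (congr_fun hq i) i
    rw [Matrix.mul_apply, Matrix.one_apply_eq] at this
    simpa only [Matrix.transpose_apply] using this
  rw [abs_le_one_iff_mul_self_le_one, ← h1]
  exact Finset.single_le_sum (f := fun l => q i l * q i l) (fun l _ => mul_self_nonneg _)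
    (Finset.mem_univ k)

private lemma rh2_pow {n : ℕ} (U : Matrix (Fin n) (Fin n) ℝ) (hU : U * U.transpose = 1) (m : ℕ) :
    U ^ m * (U ^ m).transpose = 1 := by
  induction m with
  | zero => simp
  | succ m ih =>
    rw [pow_succ, Matrix.transpose_mul, Matrix.mul_assoc, ← Matrix.mul_assoc U U.transpose, hU,
      Matrix.one_mul, ih]

/-- ZH2: recurrence of powers of an orthogonal matrix.  The powers `U^m` lie in a compact set
(entries bounded by `1`), so two of them, `U^m` and `U^(m + j)`, `j ≥ 1`, have entries differing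
by less than `ε'`; then the entries of `U^j - 1 = Uᵀ^m (U^(m+j) - U^m)` are less than `n ε'`. -/
theorem recur {n : ℕ} (U : Matrix (Fin n) (Fin n) ℝ) (hU : U * U.transpose = 1) (ε : ℝ)
    (hε : 0 < ε) : ∃ j : ℕ, 1 ≤ j ∧ ∀ i k, |(U ^ j - 1) i k| ≤ ε := by
  let x : ℕ → (Fin n → Fin n → ℝ) := fun m i k => (U ^ m) i k
  have hb : ∀ m, x m ∈ Metric.closedBall (0 : Fin n → Fin n → ℝ) 1 := by
    intro m
    rw [mem_closedBall_zero_iff]
    refine (pi_norm_le_iff_of_nonneg zero_le_one).2 fun i => ?_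
    refine (pi_norm_le_iff_of_nonneg zero_le_one).2 fun k => ?_
    exact rh2_entry_le _ (rh2_pow U hU m) i k
  obtain ⟨a, -, φ, hφ, hlim⟩ := tendsto_subseq_of_bounded Metric.isBounded_closedBall hb
  have hε' : 0 < ε / (n + 1) := by positivity
  obtain ⟨N, hN⟩ := Metric.cauchySeq_iff'.1 hlim.cauchySeq _ hε'
  have h1 := hN (N + 1) (Nat.le_succ N)
  have hlt : φ N < φ (N + 1) := hφ (Nat.lt_succ_self N)
  have hj : φ (N + 1) = φ N + (φ (N + 1) - φ N) := by omega
  refine ⟨φ (N + 1) - φ N, by omega, fun i k => ?_⟩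
  set m := φ N with hm
  set j := φ (N + 1) - m with hjdef
  have hent : ∀ l, |(U ^ (m + j) - U ^ m) l k| ≤ ε / (n + 1) := by
    intro l
    have h2 : dist (x (φ (N + 1)) l k) (x (φ N) l k) ≤ dist (x (φ (N + 1))) (x (φ N)) :=
      (dist_le_pi_dist (x (φ (N + 1)) l) (x (φ N) l) k).trans
        (dist_le_pi_dist (x (φ (N + 1))) (x (φ N)) l)
    have h3 : dist (x (φ (N + 1)) l k) (x (φ N) l k) < ε / (n + 1) := lt_of_le_of_lt h2 h1
    rw [Real.dist_eq] at h3
    rw [Matrix.sub_apply, ← hj]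
    exact h3.le
  have hT : (U ^ m).transpose * U ^ m = 1 := mul_eq_one_comm.1 (rh2_pow U hU m)
  have hid : U ^ j - 1 = (U ^ m).transpose * (U ^ (m + j) - U ^ m) := by
    rw [Matrix.mul_sub, hT, pow_add, ← Matrix.mul_assoc, hT, Matrix.one_mul]
  rw [hid, Matrix.mul_apply]
  calc |∑ l, (U ^ m).transpose i l * (U ^ (m + j) - U ^ m) l k|
      ≤ ∑ l, |(U ^ m).transpose i l * (U ^ (m + j) - U ^ m) l k| :=
        Finset.abs_sum_le_sum_abs _ _
    _ ≤ ∑ _l : Fin n, ε / (n + 1) := by
        refine Finset.sum_le_sum fun l _ => ?_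
        rw [abs_mul, Matrix.transpose_apply]
        calc |(U ^ m) l i| * |(U ^ (m + j) - U ^ m) l k| ≤ 1 * (ε / (n + 1)) :=
              mul_le_mul (rh2_entry_le _ (rh2_pow U hU m) l i) (hent l) (abs_nonneg _) zero_le_one
          _ = ε / (n + 1) := one_mul _
    _ = n * (ε / (n + 1)) := by simp
    _ ≤ ε := by
        rw [mul_div_assoc', div_le_iff₀ (by positivity)]
        nlinarith

/-- A bound for the trace of a product with an orthogonal matrix (`|q i k| ≤ 1`). -/
theorem trace_le {n : ℕ} (q B : Matrix (Fin n) (Fin n) ℝ) (hq : q * q.transpose = 1) (ε : ℝ)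
    (hB : ∀ i k, |B i k| ≤ ε) : |(q * B).trace| ≤ n * n * ε := by
  unfold Matrix.trace
  calc |∑ i, (q * B).diag i| ≤ ∑ i, |(q * B).diag i| := Finset.abs_sum_le_sum_abs _ _
    _ ≤ ∑ _i : Fin n, (n : ℝ) * ε := by
        refine Finset.sum_le_sum fun i _ => ?_
        rw [Matrix.diag_apply, Matrix.mul_apply]
        calc |∑ k, q i k * B k i| ≤ ∑ k, |q i k * B k i| := Finset.abs_sum_le_sum_abs _ _
          _ ≤ ∑ _k : Fin n, ε := by
              refine Finset.sum_le_sum fun k _ => ?_
              rw [abs_mul]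
              calc |q i k| * |B k i| ≤ 1 * ε :=
                    mul_le_mul (rh2_entry_le q hq i k) (hB k i) (abs_nonneg _) zero_le_one
                _ = ε := one_mul _
          _ = n * ε := by simp
    _ = n * n * ε := by simp; ring

end Pool.Agent.H779R2.Fi
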