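import Pool.Agent.H779R2.Fi.RH1
import Pool.Agent.H779R2.Fi.RH2

set_option autoImplicit false

namespace Pool.Agent.H779R2.Fi

open Filter Topology

private theorem rh3_entry {n : ℕ} (q : Matrix (Fin n) (Fin n) ℝ) (hq : q * q.transpose = 1)
    (i k : Fin n) : |q i k| ≤ 1 := by
  have h1 : (q * q.transpose) i i = 1 := by rw [hq]; simp
  rw [Matrix.mul_apply] at h1
  have h2 : q i k * q i k ≤ ∑ j, q i j * q.transpose j i := by
    have := Finset.single_le_sum (f := fun j => q i j * q.transpose j i)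
      (fun j _ => by
        show 0 ≤ q i j * q.transpose j i
        rw [Matrix.transpose_apply]
        exact mul_self_nonneg _) (Finset.mem_univ k)
    simpa [Matrix.transpose_apply] using this
  rw [h1] at h2
  rw [abs_le]
  constructor <;> nlinarith

private theorem rh3_pow {n : ℕ} (q : Matrix (Fin n) (Fin n) ℝ) (hq : q * q.transpose = 1)
    (m : ℕ) : q ^ m * (q ^ m).transpose = 1 := by
  induction m with
  | zero => simp
  | succ m ih =>
    rw [pow_succ, Matrix.transpose_mul]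
    calc q ^ m * q * (q.transpose * (q ^ m).transpose)
        = q ^ m * (q * q.transpose) * (q ^ m).transpose := by simp only [Matrix.mul_assoc]
      _ = 1 := by rw [hq, Matrix.mul_one, ih]

private theorem rh3_sep (S : Set ℝ) (hS : S.Finite) :
    ∃ g : ℝ, 0 < g ∧ ∀ x ∈ S, ∀ y ∈ S, |x - y| < g → x = y := by
  classical
  set T : Finset (ℝ × ℝ) := (hS.toFinset ×ˢ hS.toFinset).filter (fun p => p.1 ≠ p.2) with hT
  have hmem : ∀ x ∈ S, ∀ y ∈ S, x ≠ y → (x, y) ∈ T := by
    intro x hx y hy hxy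
    rw [hT, Finset.mem_filter, Finset.mem_product]
    exact ⟨⟨hS.mem_toFinset.2 hx, hS.mem_toFinset.2 hy⟩, hxy⟩
  rcases T.eq_empty_or_nonempty with h | h
  · refine ⟨1, one_pos, fun x hx y hy _ => ?_⟩
    by_contra hxy
    have := hmem x hx y hy hxy
    rw [h] at this
    exact absurd this (Finset.notMem_empty _)
  · obtain ⟨p, hp, hmin⟩ := T.exists_min_image (fun p => |p.1 - p.2|) h
    have hp' : p.1 ≠ p.2 := (Finset.mem_filter.1 hp).2
    refine ⟨|p.1 - p.2|, abs_pos.2 (sub_ne_zero.2 hp'), fun x hx y hy hlt => ?_⟩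
    by_contra hxy
    exact absurd (hmin _ (hmem x hx y hy hxy)) (not_le.2 hlt)

/-- ZH3: the identity is isolated in `Q`.  By `recur` choose `j ≥ 1` with entries of `U^j - 1` at
most `ε = 1 / (8 (n² + 1))`; then `|tr (q U^j) - tr q| ≤ 1/8` for orthogonal `q` (`trace_le`) and
in particular `tr (U^j) ≥ n - 1/8`.  The set of values `tr (q U^j)`, `q ∈ Q`, is finite, so there is
`g > 0` such that two of them at distance `< g` are equal.  If the entries of `q - 1` are at most
`δ` with `n² · n δ < g` (entries of `(q - 1) U^j` are at most `n δ`), then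
`|tr (q^(m+1) U^j) - tr (q^m U^j)| = |tr (q^m (q - 1) U^j)| < g`, so by induction
`tr (q^m U^j) = tr (U^j)` for all `m`, hence `tr (q^m) ≥ n - 1/4` for all `m` and `q = 1` by
`no_small`. -/
theorem isolated {n : ℕ} (Q : Set (Matrix (Fin n) (Fin n) ℝ))
    (hQ : ∀ q ∈ Q, q * q.transpose = 1) (h1 : (1 : Matrix (Fin n) (Fin n) ℝ) ∈ Q)
    (hmul : ∀ q ∈ Q, ∀ q' ∈ Q, q * q' ∈ Q)
    (U : Matrix (Fin n) (Fin n) ℝ) (hU : U * U.transpose = 1)
    (hfin : ∀ j : ℕ, 1 ≤ j → {x : ℝ | ∃ q ∈ Q, x = (q * U ^ j).trace}.Finite) :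
    ∃ δ : ℝ, 0 < δ ∧ ∀ q ∈ Q, (∀ i k, |(q - 1) i k| ≤ δ) → q = 1 := by
  have hn0 : (0 : ℝ) ≤ n := Nat.cast_nonneg n
  obtain ⟨j, hj, hjU⟩ := recur U hU (1 / (8 * ((n : ℝ) * n + 1))) (by positivity)
  have hε : (n : ℝ) * n * (1 / (8 * ((n : ℝ) * n + 1))) ≤ 1 / 8 := by
    rw [mul_one_div, div_le_div_iff₀ (by positivity) (by norm_num)]
    nlinarith
  obtain ⟨g, hg, hsep⟩ := rh3_sep _ (hfin j hj)
  -- orthogonal matrices: the trace of `q U^j` is close to the trace of `q`
  have hclose : ∀ q : Matrix (Fin n) (Fin n) ℝ, q * q.transpose = 1 →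
      |(q * U ^ j).trace - q.trace| ≤ 1 / 8 := by
    intro q hq
    have h := trace_le q (U ^ j - 1) hq _ hjU
    have e : (q * (U ^ j - 1)).trace = (q * U ^ j).trace - q.trace := by
      rw [Matrix.mul_sub, Matrix.mul_one, Matrix.trace_sub]
    rw [e] at h
    exact h.trans hε
  refine ⟨g / (2 * ((n : ℝ) * n * n + 1)), by positivity, fun q hq hqδ => ?_⟩
  have hqm : ∀ m : ℕ, q ^ m ∈ Q := by
    intro m
    induction m with
    | zero => rw [pow_zero]; exact h1
    | succ m ih => rw [pow_succ]; exact hmul _ ih _ hq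
  have hUj := rh3_pow U hU j
  have hB : ∀ i k, |((q - 1) * U ^ j) i k| ≤ n * (g / (2 * ((n : ℝ) * n * n + 1))) := by
    intro i k
    rw [Matrix.mul_apply]
    calc |∑ l, (q - 1) i l * (U ^ j) l k| ≤ ∑ l, |(q - 1) i l * (U ^ j) l k| :=
          Finset.abs_sum_le_sum_abs _ _
      _ ≤ ∑ _l : Fin n, (g / (2 * ((n : ℝ) * n * n + 1))) := by
          refine Finset.sum_le_sum fun l _ => ?_
          rw [abs_mul]
          calc |(q - 1) i l| * |(U ^ j) l k| ≤ (g / (2 * ((n : ℝ) * n * n + 1))) * 1 :=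
                mul_le_mul (hqδ i l) (rh3_entry _ hUj l k) (abs_nonneg _) (by positivity)
            _ = _ := mul_one _
      _ = n * (g / (2 * ((n : ℝ) * n * n + 1))) := by
          rw [Finset.sum_const, Finset.card_univ, Fintype.card_fin, nsmul_eq_mul]
  have hsmall : (n : ℝ) * n * (n * (g / (2 * ((n : ℝ) * n * n + 1)))) < g := by
    have hp : (0 : ℝ) < 2 * ((n : ℝ) * n * n + 1) := by positivity
    have e : (n : ℝ) * n * (n * (g / (2 * ((n : ℝ) * n * n + 1)))) =
        (n * n * n * g) / (2 * ((n : ℝ) * n * n + 1)) := by ring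
    rw [e, div_lt_iff₀ hp]
    have h3 : 0 ≤ (n : ℝ) * n * n := by positivity
    nlinarith [mul_nonneg h3 hg.le]
  have hconst : ∀ m : ℕ, (q ^ m * U ^ j).trace = (U ^ j).trace := by
    intro m
    induction m with
    | zero => rw [pow_zero, Matrix.one_mul]
    | succ m ih =>
      rw [← ih]
      refine hsep _ ⟨_, hqm (m + 1), rfl⟩ _ ⟨_, hqm m, rfl⟩ ?_
      have e : (q ^ (m + 1) * U ^ j).trace - (q ^ m * U ^ j).trace =
          (q ^ m * ((q - 1) * U ^ j)).trace := by
        rw [← Matrix.trace_sub]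
        congr 1
        rw [Matrix.sub_mul, Matrix.one_mul, Matrix.mul_sub, pow_succ, Matrix.mul_assoc]
      rw [e]
      exact (trace_le _ _ (rh3_pow q (hQ q hq) m) _ hB).trans_lt hsmall
  refine no_small q (hQ q hq) fun m => ?_
  have e1 := hclose (q ^ m) (rh3_pow q (hQ q hq) m)
  have e2 := hclose 1 (by simp)
  rw [Matrix.one_mul, Matrix.trace_one, Fintype.card_fin] at e2
  rw [hconst m] at e1
  rw [abs_le] at e1 e2
  linarith [e1.1, e1.2, e2.1, e2.2]

end Pool.Agent.H779R2.Fi
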