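import Mathlib

set_option autoImplicit false

namespace Pool.Agent.H779R2.Fi

open Filter Topology

theorem rh4_entry_le {n : ℕ} {q : Matrix (Fin n) (Fin n) ℝ} (hq : q * q.transpose = 1)
    (i k : Fin n) : |q i k| ≤ 1 := by
  have h1 : (q * q.transpose) i i = 1 := by rw [hq]; simp
  rw [Matrix.mul_apply] at h1
  simp only [Matrix.transpose_apply] at h1
  have h2 : q i k * q i k ≤ ∑ j, q i j * q i j :=
    Finset.single_le_sum (f := fun j => q i j * q i j) (fun j _ => mul_self_nonneg _)
      (Finset.mem_univ k)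
  rw [h1] at h2
  rw [abs_le]
  constructor
  · nlinarith
  · nlinarith

/-- ZH4: a group of orthogonal matrices in which the identity is isolated is finite.  The
entries are bounded by `1`, so if `Q` is infinite there are `q ≠ q'` in `Q` with entries differing
by at most `δ / (n + 1)` (pigeonhole / compactness); the entries of `q q'ᵀ - 1 = (q - q') q'ᵀ` are
then at most `δ`, so `q q'ᵀ = 1` and `q = q'`. -/
theorem finite_of_isolated {n : ℕ} (Q : Set (Matrix (Fin n) (Fin n) ℝ))
    (hQ : ∀ q ∈ Q, q * q.transpose = 1)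
    (hmul : ∀ q ∈ Q, ∀ q' ∈ Q, q * q' ∈ Q) (hinv : ∀ q ∈ Q, q.transpose ∈ Q)
    (δ : ℝ) (hδ : 0 < δ) (h : ∀ q ∈ Q, (∀ i k, |(q - 1) i k| ≤ δ) → q = 1) : Q.Finite := by
  by_contra hinf
  have hinf' : Q.Infinite := hinf
  let f := hinf'.natEmbedding Q
  let F : ℕ → (Fin n → Fin n → ℝ) := fun m => ((f m : Matrix (Fin n) (Fin n) ℝ))
  have hK : IsCompact (Set.pi Set.univ fun _ : Fin n => Set.pi Set.univ fun _ : Fin n =>
      Set.Icc (-1 : ℝ) 1) :=
    isCompact_univ_pi fun _ => isCompact_univ_pi fun _ => isCompact_Icc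
  have hFK : ∀ m, F m ∈ (Set.pi Set.univ fun _ : Fin n => Set.pi Set.univ fun _ : Fin n =>
      Set.Icc (-1 : ℝ) 1) := by
    intro m i _ k _
    exact abs_le.1 (rh4_entry_le (hQ _ (f m).2) i k)
  obtain ⟨a, -, φ, hφ, hlim⟩ := hK.tendsto_subseq hFK
  have hη : 0 < δ / (n + 1) := by positivity
  obtain ⟨N, hN⟩ := Metric.cauchySeq_iff.1 hlim.cauchySeq (δ / (n + 1)) hη
  have hd := hN N le_rfl (N + 1) (Nat.le_succ N)
  set q : Matrix (Fin n) (Fin n) ℝ := (f (φ N) : Matrix (Fin n) (Fin n) ℝ) with hqd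
  set q' : Matrix (Fin n) (Fin n) ℝ := (f (φ (N + 1)) : Matrix (Fin n) (Fin n) ℝ) with hqd'
  have hq : q ∈ Q := (f (φ N)).2
  have hq' : q' ∈ Q := (f (φ (N + 1))).2
  have hne : q ≠ q' := by
    intro he
    have h1 : f (φ N) = f (φ (N + 1)) := Subtype.ext he
    have h2 := hφ.injective (f.injective h1)
    omega
  have hent : ∀ i k, |q i k - q' i k| ≤ δ / (n + 1) := by
    intro i k
    have h1 : dist (F (φ N) i k) (F (φ (N + 1)) i k) ≤ dist (F (φ N)) (F (φ (N + 1))) :=
      (dist_le_pi_dist _ _ k).trans (dist_le_pi_dist (F (φ N)) (F (φ (N + 1))) i)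
    rw [Real.dist_eq] at h1
    exact h1.trans hd.le
  have hone : q' * q'.transpose = 1 := hQ _ hq'
  have hone' : q'.transpose * q' = 1 := mul_eq_one_comm.1 hone
  have hkey : q * q'.transpose = 1 := by
    apply h _ (hmul _ hq _ (hinv _ hq'))
    intro i k
    have h1 : q * q'.transpose - 1 = (q - q') * q'.transpose := by
      rw [sub_mul, hone]
    rw [h1, Matrix.mul_apply]
    calc |∑ j, (q - q') i j * q'.transpose j k| ≤ ∑ j, |(q - q') i j * q'.transpose j k| :=
          Finset.abs_sum_le_sum_abs _ _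
      _ ≤ ∑ _j : Fin n, δ / (n + 1) := by
          refine Finset.sum_le_sum fun j _ => ?_
          rw [abs_mul, Matrix.sub_apply, Matrix.transpose_apply]
          calc |q i j - q' i j| * |q' k j| ≤ δ / (n + 1) * 1 :=
                mul_le_mul (hent i j) (rh4_entry_le hone k j) (abs_nonneg _) hη.le
            _ = δ / (n + 1) := mul_one _
      _ = n * (δ / (n + 1)) := by
          rw [Finset.sum_const, Finset.card_univ, Fintype.card_fin, nsmul_eq_mul]
      _ ≤ δ := by
          rw [← mul_div_assoc, div_le_iff₀ (by positivity)]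
          nlinarith
  apply hne
  calc q = q * (q'.transpose * q') := by rw [hone', mul_one]
    _ = (q * q'.transpose) * q' := by rw [mul_assoc]
    _ = q' := by rw [hkey, one_mul]

end Pool.Agent.H779R2.Fi
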