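import Pool.Agent.H779R2.Fi.RH3
import Pool.Agent.H779R2.Fi.RH4

set_option autoImplicit false

namespace Pool.Agent.H779R2.Fi

open Filter Topology

/-- A basis which is orthonormal for a positive definite symmetric form. -/
theorem RH5_basis {V : Type*} [AddCommGroup V] [Module ℝ V]
    [FiniteDimensional ℝ V] (b : V →ₗ[ℝ] V →ₗ[ℝ] ℝ) (hsymm : ∀ v w, b v w = b w v)
    (hpos : ∀ v, v ≠ 0 → 0 < b v v) :
    ∃ e : Module.Basis (Fin (Module.finrank ℝ V)) ℝ V,
      ∀ i j, b (e i) (e j) = if i = j then 1 else 0 := by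
  have : Invertible (2 : ℝ) := invertibleOfNonzero (by norm_num)
  have hB : LinearMap.IsSymm b := LinearMap.isSymm_def.2 (fun v w => hsymm v w)
  obtain ⟨v, hv⟩ := LinearMap.BilinForm.exists_orthogonal_basis hB
  have hv0 : ∀ i, 0 < b (v i) (v i) := fun i => hpos _ (v.ne_zero i)
  have hs : ∀ i, Real.sqrt (b (v i) (v i)) ≠ 0 := fun i => (Real.sqrt_pos.2 (hv0 i)).ne'
  refine ⟨v.isUnitSMul (w := fun i => (Real.sqrt (b (v i) (v i)))⁻¹)
    (fun i => (inv_ne_zero (hs i)).isUnit), fun i j => ?_⟩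
  rw [Module.Basis.isUnitSMul_apply, Module.Basis.isUnitSMul_apply]
  simp only [map_smul, LinearMap.smul_apply, smul_eq_mul]
  split_ifs with h
  · subst h
    have h1 : b (v i) (v i) = Real.sqrt (b (v i) (v i)) * Real.sqrt (b (v i) (v i)) :=
      (Real.mul_self_sqrt (hv0 i).le).symm
    have h2 := hs i
    generalize Real.sqrt (b (v i) (v i)) = r at h1 h2
    rw [h1]
    field_simp
  · have h1 : b (v i) (v j) = 0 := hv h
    rw [h1]
    ring

/-- ZH5: the linear algebra statement.  Choose a basis of `V` orthonormal for `b` (for example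
through `InnerProductSpace.Core` on a copy of `V`, or
`LinearMap.BilinForm` orthogonal bases normalised by square roots), so that the matrices of
elements of `Q` are orthogonal and the matrix of `A` is `√κ U` with `U` orthogonal; then
`tr (q A^j) = √κ^j tr (q U^j)`; apply `isolated` and `finite_of_isolated`. -/
theorem finite_of_traces {V : Type*} [AddCommGroup V] [Module ℝ V]
    [FiniteDimensional ℝ V] (b : V →ₗ[ℝ] V →ₗ[ℝ] ℝ) (hsymm : ∀ v w, b v w = b w v)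
    (hpos : ∀ v, v ≠ 0 → 0 < b v v) (Q : Set (V →ₗ[ℝ] V)) (h1 : LinearMap.id ∈ Q)
    (hmul : ∀ q ∈ Q, ∀ q' ∈ Q, q ∘ₗ q' ∈ Q) (hinv : ∀ q ∈ Q, ∃ q' ∈ Q, q' ∘ₗ q = LinearMap.id)
    (hiso : ∀ q ∈ Q, ∀ v w, b (q v) (q w) = b v w) (A : V →ₗ[ℝ] V) (κ : ℝ) (hκ : 0 < κ)
    (hA : ∀ v w, b (A v) (A w) = κ * b v w)
    (hfin : ∀ j : ℕ, 1 ≤ j → {x : ℝ | ∃ q ∈ Q, x = LinearMap.trace ℝ V (q ∘ₗ A ^ j)}.Finite) :
    Q.Finite := by
  classical
  obtain ⟨e, he⟩ := RH5_basis b hsymm hpos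
  obtain ⟨φ, hφ⟩ : ∃ φ : (V →ₗ[ℝ] V) ≃ₐ[ℝ] Matrix (Fin (Module.finrank ℝ V))
      (Fin (Module.finrank ℝ V)) ℝ, ∀ f, φ f = LinearMap.toMatrix e e f :=
    ⟨LinearMap.toMatrixAlgEquiv e, fun _ => rfl⟩
  have hcomp : ∀ f g : V →ₗ[ℝ] V, φ (f ∘ₗ g) = φ f * φ g := fun f g => map_mul φ f g
  have hid : φ LinearMap.id = 1 := map_one φ
  have hexp : ∀ f g : V →ₗ[ℝ] V, ∀ i k, b (f (e i)) (g (e k)) = ((φ f).transpose * φ g) i k := by
    intro f g i k
    have h2 : f (e i) = ∑ l, φ f l i • e l := by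
      rw [hφ]
      conv_lhs => rw [← e.sum_repr (f (e i))]
      apply Finset.sum_congr rfl
      intro l _
      rw [LinearMap.toMatrix_apply]
    have h3 : g (e k) = ∑ l, φ g l k • e l := by
      rw [hφ]
      conv_lhs => rw [← e.sum_repr (g (e k))]
      apply Finset.sum_congr rfl
      intro l _
      rw [LinearMap.toMatrix_apply]
    rw [h2, h3, Matrix.mul_apply]
    simp only [map_sum, LinearMap.sum_apply, map_smul, LinearMap.smul_apply, he, smul_eq_mul,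
      Matrix.transpose_apply, mul_ite, mul_one, mul_zero, Finset.sum_ite_eq, Finset.sum_ite_eq',
      Finset.mem_univ, if_true]
    apply Finset.sum_congr rfl
    intro l _
    ring
  have hid' : ∀ i k, b (e i) (e k) = (1 : Matrix (Fin (Module.finrank ℝ V))
      (Fin (Module.finrank ℝ V)) ℝ) i k := by
    intro i k
    rw [he, Matrix.one_apply]
  have hQo : ∀ q ∈ Q, (φ q).transpose * φ q = 1 := by
    intro q hq
    ext i k
    rw [← hexp, hiso q hq, hid']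
  have hQo' : ∀ q ∈ Q, φ q * (φ q).transpose = 1 := fun q hq =>
    mul_eq_one_comm.1 (hQo q hq)
  have hAo : (φ A).transpose * φ A = κ • 1 := by
    ext i k
    rw [← hexp, hA, hid', Matrix.smul_apply, smul_eq_mul]
  set r := (Real.sqrt κ)⁻¹ with hr
  have hrk : r * r * κ = 1 := by
    have h2 := Real.mul_self_sqrt hκ.le
    have h3 : Real.sqrt κ ≠ 0 := (Real.sqrt_pos.2 hκ).ne'
    rw [hr]
    generalize Real.sqrt κ = s at h2 h3
    rw [← h2]
    field_simp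
  set U := r • φ A with hU
  have hU1 : U.transpose * U = 1 := by
    rw [hU, Matrix.transpose_smul, Matrix.smul_mul, Matrix.mul_smul, hAo, smul_smul, smul_smul,
      hrk, one_smul]
  have hU2 : U * U.transpose = 1 := mul_eq_one_comm.1 hU1
  set Q' := φ '' Q with hQ'
  have k1 : ∀ q ∈ Q', q * q.transpose = 1 := by
    rintro _ ⟨q, hq, rfl⟩
    exact hQo' q hq
  have k2 : (1 : Matrix (Fin (Module.finrank ℝ V)) (Fin (Module.finrank ℝ V)) ℝ) ∈ Q' :=
    ⟨_, h1, hid⟩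
  have k3 : ∀ q ∈ Q', ∀ q' ∈ Q', q * q' ∈ Q' := by
    rintro _ ⟨q, hq, rfl⟩ _ ⟨q', hq', rfl⟩
    exact ⟨_, hmul q hq q' hq', hcomp q q'⟩
  have k4 : ∀ q ∈ Q', q.transpose ∈ Q' := by
    rintro _ ⟨q, hq, rfl⟩
    obtain ⟨q', hq', h⟩ := hinv q hq
    refine ⟨q', hq', ?_⟩
    have h2 : φ q' * φ q = 1 := by rw [← hcomp, h, hid]
    calc φ q' = φ q' * (φ q * (φ q).transpose) := by rw [hQo' q hq, mul_one]
      _ = (φ q' * φ q) * (φ q).transpose := by rw [mul_assoc]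
      _ = _ := by rw [h2, one_mul]
  have k5 : ∀ j : ℕ, 1 ≤ j → {x : ℝ | ∃ q ∈ Q', x = (q * U ^ j).trace}.Finite := by
    intro j hj
    refine ((hfin j hj).image (fun x => r ^ j * x)).subset ?_
    rintro _ ⟨_, ⟨q, hq, rfl⟩, rfl⟩
    refine ⟨_, ⟨q, hq, rfl⟩, ?_⟩
    have h2 : LinearMap.trace ℝ V (q ∘ₗ A ^ j) = (φ q * φ A ^ j).trace := by
      rw [LinearMap.trace_eq_matrix_trace ℝ e, ← hφ, hcomp, map_pow]
    show r ^ j * LinearMap.trace ℝ V (q ∘ₗ A ^ j) = _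
    rw [h2, hU, smul_pow, Matrix.mul_smul, Matrix.trace_smul, smul_eq_mul]
  obtain ⟨δ, hδ, hi⟩ := isolated Q' k1 k2 k3 U hU2 k5
  have hf := finite_of_isolated Q' k1 k3 k4 δ hδ hi
  exact Set.Finite.of_finite_image hf φ.injective.injOn

end Pool.Agent.H779R2.Fi
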