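import Pool.Agent.H779R2.Fi.RDef
import Pool.Agent.H779R2.Fi.RA

set_option autoImplicit false

namespace Pool.Agent.H779R2.Fi

open Pool.Agent.H779R2.To
open Filter Topology

variable {V Z : Type*} [NormedAddCommGroup V] [NormedSpace ℝ V] [MetricSpace Z]

/-- ZI: a subgroup `N` of finite index of `Λ` acting by translations on `V` and normalized by `gt`
gives translation data.  `Γ = {t a | a ∈ N}` is an additive subgroup of `V` (`alg`); for `γ ∈ Γ`
the element `a ∈ N` with `t a = γ` is unique (`alg`, last part, as `R a = id`), `σ` of `TDat` is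
the homeomorphism `s ↦ σ a s` (inverse from `a⁻¹`; continuous since `a` is), `A`, `G`, `St` as in
`D`, `φ γ = A γ`; `proper` from `D.proper` (injectivity of `γ ↦ a`); `cocompact`: the union of the
images `c '' K`, `c ∈ s` (`K` from `D.cocompact`): if `a y ∈ K` and `c * a ∈ N` use `c * a`. -/
theorem exists_tdat_sub [Nonempty Z] (D : RDat V Z) (N : Subgroup ((V × Z) ≃ₜ (V × Z)))
    (hN : N ≤ D.Λ) (hR : ∀ a : D.Λ, (a : (V × Z) ≃ₜ (V × Z)) ∈ N → ∀ v, D.R a v = v)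
    (hgt : ∀ a, a ∈ N ↔ D.gt * a * D.gt⁻¹ ∈ N)
    (hfi : ∃ s : Set ((V × Z) ≃ₜ (V × Z)), s.Finite ∧ s ⊆ D.Λ ∧ ∀ a ∈ D.Λ, ∃ c ∈ s, c * a ∈ N) :
    ∃ (Γ : AddSubgroup V) (T : TDat V Z Γ), T.gt = D.gt ∧
      (∀ a : Γ, ∃ c ∈ N, ∀ y, c y = T.act a y) ∧ (∀ c ∈ N, ∃ a : Γ, ∀ y, c y = T.act a y) := by
  sorry

end Pool.Agent.H779R2.Fi
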