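import Mathlib

set_option autoImplicit false

namespace Pool.Agent.H779R2.Fi

/-- ZJ1 (pure group theory): put `N = ⋂_{i < n} F^i Tr F^{-i}`.  As `F^n = δ g` normalizes `Tr`
(`hnorm`, `hg`), `N` is normalized by `F`; every `F^i Tr F^{-i}` is normal in `F^i Λ F^{-i} = Λ`, so
`N` is normal in `Λ` and normalized by `g = δ⁻¹ F^n`; a finite intersection of subgroups of finite
index has finite index (for `Tr` itself this is `hfi`; transport by `F^i`; `Subgroup.relIndex` or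
`Subgroup.FiniteIndex` in `Λ` can help).  For `k`: `δ_k = F^(n k) g^(-k) ∈ Λ`; by pigeonhole there
are `k < l` with `δ_k⁻¹ δ_l ∈ N`, and `δ_k⁻¹ δ_l = g^k δ_(l-k) g^(-k)`, so `δ_(l-k) ∈ N`. -/
theorem exists_N_group {G : Type*} [Group G] (Λ Tr : Subgroup G) (hTr : Tr ≤ Λ)
    (hnorm : ∀ a ∈ Λ, ∀ t ∈ Tr, a * t * a⁻¹ ∈ Tr)
    (hfi : ∃ s : Set G, s.Finite ∧ s ⊆ Λ ∧ ∀ a ∈ Λ, ∃ c ∈ s, c * a ∈ Tr)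
    (g : G) (hgΛ : ∀ a, a ∈ Λ ↔ g * a * g⁻¹ ∈ Λ) (hg : ∀ a, a ∈ Tr ↔ g * a * g⁻¹ ∈ Tr)
    (F : G) (hF : ∀ a, a ∈ Λ ↔ F * a * F⁻¹ ∈ Λ) (n : ℕ) (hn : 1 ≤ n) (δ : G) (hδ : δ ∈ Λ)
    (hFn : F ^ n = δ * g) :
    ∃ N : Subgroup G, N ≤ Tr ∧ (∀ a, a ∈ N ↔ F * a * F⁻¹ ∈ N) ∧
      (∀ a, a ∈ N ↔ g * a * g⁻¹ ∈ N) ∧
      (∃ s : Set G, s.Finite ∧ s ⊆ Λ ∧ ∀ a ∈ Λ, ∃ c ∈ s, c * a ∈ N) ∧
      ∃ k : ℕ, 1 ≤ k ∧ ∃ δ' ∈ N, F ^ (n * k) = δ' * g ^ k := by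
  sorry

end Pool.Agent.H779R2.Fi
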