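import Pool.Agent.H779R2.Fi.RDef
import Pool.Agent.H779R2.Fi.RA
import Pool.Agent.H779R2.Fi.RC
import Pool.Agent.H779R2.Fi.RJ1

set_option autoImplicit false

namespace Pool.Agent.H779R2.Fi

open Pool.Agent.H779R2.To
open Filter Topology

variable {V Z : Type*} [NormedAddCommGroup V] [NormedSpace ℝ V] [MetricSpace Z]

/-- the subgroup of the elements with trivial linear part -/
private def RJ2Tr [Nonempty Z] (D : RDat V Z) : Subgroup ((V × Z) ≃ₜ (V × Z)) where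
  carrier := {a | ∃ h : a ∈ D.Λ, ∀ v, D.R ⟨a, h⟩ v = v}
  one_mem' := ⟨D.Λ.one_mem, D.alg.2.2.2.1⟩
  mul_mem' := by
    rintro a b ⟨ha, ha'⟩ ⟨hb, hb'⟩
    refine ⟨D.Λ.mul_mem ha hb, fun v => ?_⟩
    have h := D.alg.1 ⟨a, ha⟩ ⟨b, hb⟩ v
    rw [hb', ha'] at h
    exact h
  inv_mem' := by
    rintro a ⟨ha, ha'⟩
    refine ⟨D.Λ.inv_mem ha, fun v => ?_⟩
    have h := D.alg.1 (⟨a, ha⟩⁻¹) ⟨a, ha⟩ v
    rw [inv_mul_cancel, D.alg.2.2.2.1, ha'] at h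
    exact h.symm

/-- ZJ2: `exists_N_group` with `Tr = {a ∈ Λ | R a = id}` (normal in `Λ` by `alg`, normalized by `gt`
by `exists_phi`; finite index: choose for every value `r` of `D.R` an element `a_r` and take
`s = {a_r⁻¹}`; `hgΛ` is the field `norm`). -/
theorem RDat.exists_N [Nonempty Z] (D : RDat V Z) (hfin : (Set.range D.R).Finite)
    (F : (V × Z) ≃ₜ (V × Z)) (hF : ∀ a, a ∈ D.Λ ↔ F * a * F⁻¹ ∈ D.Λ) (n : ℕ) (hn : 1 ≤ n)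
    (δ : (V × Z) ≃ₜ (V × Z)) (hδ : δ ∈ D.Λ) (hFn : F ^ n = δ * D.gt) :
    ∃ N : Subgroup ((V × Z) ≃ₜ (V × Z)), N ≤ D.Λ ∧
      (∀ a : D.Λ, (a : (V × Z) ≃ₜ (V × Z)) ∈ N → ∀ v, D.R a v = v) ∧
      (∀ a, a ∈ N ↔ F * a * F⁻¹ ∈ N) ∧ (∀ a, a ∈ N ↔ D.gt * a * D.gt⁻¹ ∈ N) ∧
      (∃ s : Set ((V × Z) ≃ₜ (V × Z)), s.Finite ∧ s ⊆ D.Λ ∧ ∀ a ∈ D.Λ, ∃ c ∈ s, c * a ∈ N) ∧
      ∃ k : ℕ, 1 ≤ k ∧ ∃ δ' ∈ N, F ^ (n * k) = δ' * D.gt ^ k := by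
  obtain ⟨hmul, -, -, hone, -, -, -⟩ := D.alg
  obtain ⟨φ, hφ, hφR, -, -⟩ := D.exists_phi
  have hinv : ∀ (a : D.Λ) (v : V), D.R a⁻¹ (D.R a v) = v := by
    intro a v
    rw [← hmul, inv_mul_cancel, hone]
  have hinv' : ∀ (a : D.Λ) (v : V), D.R a (D.R a⁻¹ v) = v := by
    intro a v
    rw [← hmul, mul_inv_cancel, hone]
  have hmem : ∀ a : D.Λ, (a : (V × Z) ≃ₜ (V × Z)) ∈ RJ2Tr D ↔ ∀ v, D.R a v = v := by
    intro a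
    constructor
    · rintro ⟨_, h⟩
      exact h
    · intro h
      exact ⟨a.2, h⟩
  have hgΛ : ∀ a : (V × Z) ≃ₜ (V × Z), a ∈ D.Λ ↔ D.gt * a * D.gt⁻¹ ∈ D.Λ := D.norm
  have hnorm : ∀ a ∈ D.Λ, ∀ t ∈ RJ2Tr D, a * t * a⁻¹ ∈ RJ2Tr D := by
    intro a ha t ht
    obtain ⟨htΛ, ht'⟩ := ht
    have h1 : ((⟨a, ha⟩ * ⟨t, htΛ⟩ * ⟨a, ha⟩⁻¹ : D.Λ) : (V × Z) ≃ₜ (V × Z)) ∈ RJ2Tr D := by
      rw [hmem]
      intro v
      rw [hmul, hmul, ht', hinv']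
    exact h1
  have hfi : ∃ s : Set ((V × Z) ≃ₜ (V × Z)), s.Finite ∧ s ⊆ D.Λ ∧
      ∀ a ∈ D.Λ, ∃ c ∈ s, c * a ∈ RJ2Tr D := by
    have hch : ∀ r : Set.range D.R, ∃ a : D.Λ, D.R a = r := fun r => r.2
    choose c hc using hch
    have : Finite (Set.range D.R) := hfin
    refine ⟨Set.range fun r => (((c r)⁻¹ : D.Λ) : (V × Z) ≃ₜ (V × Z)), Set.finite_range _, ?_, ?_⟩
    · rintro _ ⟨r, rfl⟩
      exact ((c r)⁻¹).2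
    · intro a ha
      refine ⟨_, ⟨⟨D.R ⟨a, ha⟩, Set.mem_range_self _⟩, rfl⟩, ?_⟩
      set r : Set.range D.R := ⟨D.R ⟨a, ha⟩, Set.mem_range_self _⟩ with hr
      have h1 : (((c r)⁻¹ * ⟨a, ha⟩ : D.Λ) : (V × Z) ≃ₜ (V × Z)) ∈ RJ2Tr D := by
        rw [hmem]
        intro v
        have h2 : D.R ⟨a, ha⟩ = D.R (c r) := by rw [hc r]
        rw [hmul, h2, hinv]
      exact h1
  have hg : ∀ a, a ∈ RJ2Tr D ↔ D.gt * a * D.gt⁻¹ ∈ RJ2Tr D := by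
    intro a
    constructor
    · rintro ⟨ha, ha'⟩
      have h1 := hφ ⟨a, ha⟩
      have h2 : ((φ ⟨a, ha⟩ : D.Λ) : (V × Z) ≃ₜ (V × Z)) ∈ RJ2Tr D := by
        rw [hmem]
        intro w
        have h3 := hφR ⟨a, ha⟩ (D.A.symm w)
        rw [ha', ContinuousLinearEquiv.apply_symm_apply] at h3
        exact h3
      rw [h1] at h2
      exact h2
    · intro h
      obtain ⟨h0, h0'⟩ := h
      have ha : a ∈ D.Λ := (hgΛ a).2 h0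
      refine ⟨ha, fun v => ?_⟩
      have h1 : φ ⟨a, ha⟩ = ⟨D.gt * a * D.gt⁻¹, h0⟩ := Subtype.ext (hφ ⟨a, ha⟩)
      have h2 := hφR ⟨a, ha⟩ v
      rw [h1, h0'] at h2
      exact (D.A.injective h2).symm
  obtain ⟨N, hN1, hN2, hN3, hN4, hN5⟩ := exists_N_group D.Λ (RJ2Tr D) (fun a ha => ha.1) hnorm hfi
    D.gt hgΛ hg F hF n hn δ hδ hFn
  exact ⟨N, fun a ha => (hN1 ha).1, fun a ha => (hmem a).1 (hN1 ha), hN2, hN3, hN4, hN5⟩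

end Pool.Agent.H779R2.Fi
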