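import Pool.Agent.H779R2.Fi.GeDef

set_option autoImplicit false

namespace Pool.Agent.H779R2.Fi

open Pool.Agent.H721R2 Pool.Agent.H789R2.AN Pool.Agent.H789R2.GP Pool.Agent.H779R2.An
open Pool.Agent.H779R2.To Pool.Agent.H779R2.Nu
open Filter Topology

variable {X E : Type*} [MetricSpace X] [CompactSpace X] [NormedAddCommGroup E]
  [InnerProductSpace ℝ E] [FiniteDimensional ℝ E]

/-- the linear part of the first factor of a deck transformation is invertible -/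
theorem rn1_lin {S : HypSys X E} (F : Flat S) {p q : X} (hu : UAsym S q p) (hs : SAsym S q p) :
    ∃ e : S.Vu p ≃ₗ[ℝ] S.Vu p, ∀ v : S.Vu p, ((e v : S.Vu p) : E) = F.H q p (F.τ p q (v : E)) := by
  have hs' : SAsym S p q := hs.symm
  have hu' : UAsym S p q := hu.symm
  have h1 : ∀ v ∈ S.Vu p, (F.H q p).comp (F.τ p q) v ∈ S.Vu p := fun v hv =>
    F.H_mem _ _ hs _ (F.τ_mem _ _ hu' _ hv)
  have h2 : ∀ v ∈ S.Vu p, (F.τ q p).comp (F.H p q) v ∈ S.Vu p := fun v hv =>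
    F.τ_mem _ _ hu _ (F.H_mem _ _ hs' _ hv)
  refine ⟨LinearEquiv.ofLinear (((F.H q p).comp (F.τ p q)).restrict h1)
    (((F.τ q p).comp (F.H p q)).restrict h2) ?_ ?_, fun v => rfl⟩
  · ext v
    show F.H q p (F.τ p q (F.τ q p (F.H p q (v : E)))) = (v : E)
    have a1 : F.H p q (v : E) ∈ S.Vu q := F.H_mem _ _ hs' _ v.2
    rw [F.τ_comp q p q hu hu' _ a1, F.τ_self _ _ a1, F.H_comp p q p hs' hs _ v.2,
      F.H_self _ _ v.2]
  · ext v
    show F.τ q p (F.H p q (F.H q p (F.τ p q (v : E)))) = (v : E)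
    have a1 : F.τ p q (v : E) ∈ S.Vu q := F.τ_mem _ _ hu' _ v.2
    rw [F.H_comp q p q hs hs' _ a1, F.H_self _ _ a1, F.τ_comp p q p hu' hu _ v.2,
      F.τ_self _ _ v.2]

/-- ZN1: the deck transformation of a deck point.  Second factor: `V4aux.one` (To/GSig.lean).
First factor: the affine bijection `v ↦ H z.s p (τ p z.s v) + Lc p z.u` of `Vu p` (bijective linear
part: `F.H_comp`, `F.H_self`, `F.τ_comp`, `F.τ_self` give the inverse `τ z.s p ∘ H p z.s`).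
`P (h y) = P y`: second half of `xi_fib` (To/GFib.lean), with `deckaux_tr`, `deckaux_Q`
(An/LTrans.lean) instead of `deck_trans`: if `T.Q z.s p w u'` then
`Lc p u' = H z.s p (τ p z.s (Lc p w)) + Lc p z.u`. -/
theorem exists_dk {S : HypSys X E} {F : Flat S} {c : ℝ} {T : QS S.g c} (hc : 0 < c)
    (hT : ∀ a s u x, T.Q a s u x ↔ QdF F a s u x) {p : X} (x : Xi F p) (z : Leaf S.g p)
    (hz : z.pr T = p) : ∃ h : (S.Vu p × SLf S.g p) ≃ₜ (S.Vu p × SLf S.g p),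
      IsDk F T p z h ∧ ∀ y, x.P T (h y) = x.P T y := by
  obtain ⟨hu, hs, htr⟩ := deckaux_tr F T hT p z hz
  have q0 : T.Q p z.s z.u p := by
    have := z.pr_spec T
    rwa [hz] at this
  have hzu : UAsym S p z.u := z.hu
  obtain ⟨e, he⟩ := rn1_lin F hu hs
  obtain ⟨σ, hσ⟩ := V4aux.one hc T q0 z.hu
  let t₀ : S.Vu p := ⟨F.Lc p z.u, F.Lc_mem _ _ hzu⟩
  let h1 : S.Vu p ≃ₜ S.Vu p :=
    e.toContinuousLinearEquiv.toHomeomorph.trans (Homeomorph.addRight t₀)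
  have hh1 : ∀ v : S.Vu p, ((h1 v : S.Vu p) : E) = F.H z.s p (F.τ p z.s (v : E)) + F.Lc p z.u := by
    intro v
    show ((e v : S.Vu p) : E) + F.Lc p z.u = _
    rw [he]
  refine ⟨h1.prodCongr σ, ⟨fun y => hh1 y.1, fun y => hσ y.2⟩, ?_⟩
  intro y
  obtain ⟨w, rfl⟩ := x.Ξ.surjective y
  have hP : ∀ v, x.P T (x.Ξ v) = v.pr T := fun v => by
    show (x.Ξ.symm (x.Ξ v)).pr T = _
    rw [Homeomorph.symm_apply_apply]
  rw [hP]
  have hsp : WS S.g.symm z.s p := T.wU _ _ _ _ q0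
  have hup : WS S.g z.u p := T.wS _ _ _ _ q0
  obtain ⟨u', hu'⟩ := T.ex z.s p w.u z.hs.symm' (hsp.trans w.hu)
  obtain ⟨t', ht'⟩ := T.ex z.u w.s p (hup.trans w.hs) z.hu.symm'
  let v : Leaf S.g p := ⟨u', t', T.wU _ _ _ _ hu', T.wS _ _ _ _ ht'⟩
  have hv : v.pr T = w.pr T := by
    apply Leaf.pr_eq
    show T.Q p t' u' (w.pr T)
    have a1 : T.Q p t' z.u w.s := T.flipU _ _ _ _ ht'
    have a2 : T.Q p z.u z.s p := T.flipU _ _ _ _ (T.flipS _ _ _ _ q0)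
    have a3 : T.Q p z.u w.u u' := T.compU _ _ _ _ _ _ a2 hu'
    have a4 : T.Q z.u p u' w.u := T.flipS _ _ _ _ a3
    have a5 : T.Q z.u w.s u' (w.pr T) := T.compS _ _ _ _ _ _ a4 (w.pr_spec T)
    exact T.compU _ _ _ _ _ _ a1 a5
  have hvw : x.Ξ v = (h1.prodCongr σ) (x.Ξ w) := by
    apply Prod.ext
    · apply Subtype.ext
      show ((x.Ξ v).1 : E) = ((h1 (x.Ξ w).1 : S.Vu p) : E)
      rw [x.fst, hh1, x.fst]
      have hd := deckaux_Q F p z.s w.u u' ((hT _ _ _ _).mp hu') hu.symm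
      show F.Lc p u' = _
      rw [hd, htr, sub_eq_add_neg]
    · apply Subtype.ext
      apply SM.ext
      have k1 := hσ (x.Ξ w).2
      rw [x.snd] at k1
      show (x.Ξ v).2.1.val = _
      rw [x.snd]
      exact T.unique _ _ _ _ _ ht' k1
  rw [← hvw, hP, hv]

end Pool.Agent.H779R2.Fi
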