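import Pool.Agent.H779R2.Fi.GeDef

set_option autoImplicit false

namespace Pool.Agent.H779R2.Fi

open Pool.Agent.H721R2 Pool.Agent.H789R2.AN Pool.Agent.H789R2.GP Pool.Agent.H779R2.An
open Pool.Agent.H779R2.To Pool.Agent.H779R2.Nu
open Filter Topology

variable {X E : Type*} [MetricSpace X] [CompactSpace X] [NormedAddCommGroup E]
  [InnerProductSpace ℝ E] [FiniteDimensional ℝ E]

/-- ZN3: a deck transformation whose affine part has a fixed point is the identity.  Second half of
`deckaux_id` (An/LTrans.lean): from the fixed point one gets `z.s = p`, then `z.u = p`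
(uniqueness), so the affine part is the identity (`H_self`, `τ_self`, `Lc_self`) and
`T.Q p s p (h (v, s)).2` gives `(h (v, s)).2 = s`. -/
theorem dk_free {S : HypSys X E} {F : Flat S} {c : ℝ} {T : QS S.g c}
    (hT : ∀ a s u x, T.Q a s u x ↔ QdF F a s u x) {p : X} (z : Leaf S.g p)
    (hz : z.pr T = p) (h : (S.Vu p × SLf S.g p) ≃ₜ (S.Vu p × SLf S.g p)) (hh : IsDk F T p z h)
    (v : E) (hv : v ∈ S.Vu p) (hfix : F.H z.s p (F.τ p z.s v) + F.Lc p z.u = v) : h = 1 := by
  sorry

end Pool.Agent.H779R2.Fi
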