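import Pool.Agent.H779R2.Fi.GeDef

set_option autoImplicit false

namespace Pool.Agent.H779R2.Fi

open Pool.Agent.H721R2 Pool.Agent.H789R2.AN Pool.Agent.H789R2.GP Pool.Agent.H779R2.An
open Pool.Agent.H779R2.To Pool.Agent.H779R2.Nu
open Filter Topology

variable {X E : Type*} [MetricSpace X] [CompactSpace X] [NormedAddCommGroup E]
  [InnerProductSpace ℝ E] [FiniteDimensional ℝ E]

/-- ZN5: iterates of the derivative are conformal (induction on `N`; `Dn_mem`). -/
theorem cs0_Dn {S : HypSys X E} (B : CS0 S) (N : ℕ) (p : X) : ∃ κ : ℝ, 0 < κ ∧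
    ∀ v ∈ S.Vu p, ∀ w ∈ S.Vu p, B.B (S.g^[N] p) (Dn S N p v) (Dn S N p w) = κ * B.B p v w := by
  sorry

end Pool.Agent.H779R2.Fi
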