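import Pool.Agent.H779R2.Fi.RDef

set_option autoImplicit false

namespace Pool.Agent.H779R2.Fi

open Pool.Agent.H779R2.To
open Filter Topology

/-- ZW1: a continuous map of `ℝ^m` which maps `ℤ^m`-cosets to `ℤ^m`-cosets is at bounded distance
from an integral matrix. (helper885) -/
theorem per_aff {m : ℕ} (a : (Fin m → ℝ) → (Fin m → ℝ)) (ha : Continuous a)
    (h : ∀ z : Fin m → ℤ, ∃ z' : Fin m → ℤ, ∀ v,
      a (v + fun i => (z i : ℝ)) = a v + fun i => (z' i : ℝ)) :
    ∃ (B : Matrix (Fin m) (Fin m) ℤ) (M : ℝ),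
      (∀ (z : Fin m → ℤ) (v : Fin m → ℝ),
        a (v + fun i => (z i : ℝ)) = a v + fun i => ((B.mulVec z) i : ℝ)) ∧
      ∀ v, ‖a v - (B.map (Int.cast : ℤ → ℝ)).mulVec v‖ ≤ M := by
  classical
  choose φ hφ using h
  obtain ⟨B, hB⟩ : ∃ B : Matrix (Fin m) (Fin m) ℤ, B = Matrix.of (fun j i => φ (Pi.single i 1) j) :=
    ⟨_, rfl⟩
  have hBs : ∀ i, B.mulVec (Pi.single i 1) = φ (Pi.single i 1) := by
    intro i
    rw [Matrix.mulVec_single_one, hB]
    rfl
  let S : AddSubgroup (Fin m → ℤ) :=
    { carrier := {z | ∀ v, a (v + fun i => (z i : ℝ)) = a v + fun i => ((B.mulVec z) i : ℝ)}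
      zero_mem' := by
        intro v
        rw [Matrix.mulVec_zero]
        have e1 : (fun i : Fin m => (((0 : Fin m → ℤ) i : ℤ) : ℝ)) = 0 := by
          funext i
          simp
        rw [e1, add_zero, add_zero]
      add_mem' := by
        intro z z' hz hz' v
        have e1 : (fun i : Fin m => (((z + z') i : ℤ) : ℝ)) =
            (fun i => (z i : ℝ)) + fun i => (z' i : ℝ) := by
          funext i
          simp
        have e2 : (fun i : Fin m => (((B.mulVec (z + z')) i : ℤ) : ℝ)) =
            (fun i => ((B.mulVec z) i : ℝ)) + fun i => ((B.mulVec z') i : ℝ) := by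
          funext i
          rw [Matrix.mulVec_add]
          simp
        rw [e1, e2, ← add_assoc, hz', hz, add_assoc]
      neg_mem' := by
        intro z hz v
        have e1 : (fun i : Fin m => (((-z) i : ℤ) : ℝ)) = -(fun i => (z i : ℝ)) := by
          funext i
          simp
        have e2 : (fun i : Fin m => (((B.mulVec (-z)) i : ℤ) : ℝ)) =
            -(fun i => ((B.mulVec z) i : ℝ)) := by
          funext i
          rw [Matrix.mulVec_neg]
          simp
        have h1 := hz (v + fun i => (((-z) i : ℤ) : ℝ))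
        rw [e1] at h1
        rw [neg_add_cancel_right] at h1
        rw [e1, e2, h1, add_neg_cancel_right] }
  have hS : ∀ z : Fin m → ℤ, z ∈ S := by
    intro z
    have h1 : z = ∑ i, z i • (Pi.single i 1 : Fin m → ℤ) := by
      funext j
      simp [Finset.sum_apply, Pi.single_apply]
    rw [h1]
    refine AddSubgroup.sum_mem _ fun i _ => AddSubgroup.zsmul_mem _ ?_ _
    intro v
    rw [hBs i]
    exact hφ (Pi.single i 1) v
  obtain ⟨M, hM⟩ := (isCompact_Icc (a := (0 : Fin m → ℝ)) (b := 1)).exists_bound_of_continuousOn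
    (f := fun v => a v - (B.map (Int.cast : ℤ → ℝ)).mulVec v)
    (by
      apply Continuous.continuousOn
      apply ha.sub
      exact (Matrix.mulVecLin (B.map (Int.cast : ℤ → ℝ))).continuous_of_finiteDimensional)
  refine ⟨B, M, fun z v => hS z v, fun v => ?_⟩
  have hv : v = (fun i => Int.fract (v i)) + fun i => ((⌊v i⌋ : ℤ) : ℝ) := by
    funext i
    exact (Int.fract_add_floor (v i)).symm
  have hw : (fun i => Int.fract (v i)) ∈ Set.Icc (0 : Fin m → ℝ) 1 := by
    constructor
    · intro i
      exact Int.fract_nonneg _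
    · intro i
      exact (Int.fract_lt_one _).le
  have h2 := hM _ hw
  have h3 : a v - (B.map (Int.cast : ℤ → ℝ)).mulVec v =
      a (fun i => Int.fract (v i)) -
        (B.map (Int.cast : ℤ → ℝ)).mulVec (fun i => Int.fract (v i)) := by
    have h4 := hS (fun i => ⌊v i⌋) (fun i => Int.fract (v i))
    rw [← hv] at h4
    have h5 : (B.map (Int.cast : ℤ → ℝ)).mulVec (fun i => ((⌊v i⌋ : ℤ) : ℝ)) =
        fun i => ((B.mulVec (fun i => ⌊v i⌋)) i : ℝ) := by
      funext i
      simp [Matrix.mulVec, dotProduct]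
    have h6 : (B.map (Int.cast : ℤ → ℝ)).mulVec v =
        (B.map (Int.cast : ℤ → ℝ)).mulVec (fun i => Int.fract (v i)) +
          fun i => ((B.mulVec (fun i => ⌊v i⌋)) i : ℝ) := by
      rw [← h5, ← Matrix.mulVec_add, ← hv]
    rw [h4, h6, add_sub_add_right_eq_sub]
  rw [h3]
  exact h2

end Pool.Agent.H779R2.Fi
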