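import Pool.Agent.H779R2.Fi.RDef

set_option autoImplicit false

namespace Pool.Agent.H779R2.Fi

open Pool.Agent.H779R2.To
open Filter Topology

theorem hyp_bdd_aux {m : ℕ} (f : (Fin m → ℂ) →ₗ[ℂ] (Fin m → ℂ)) (hinj : Function.Injective f)
    (hf : ∀ μ : ℂ, ‖μ‖ = 1 → ∀ z, f z = μ • z → z = 0)
    (w : ℤ → (Fin m → ℂ)) (hw : ∀ j, w (j + 1) = f (w j)) (M : ℝ) (hM : ∀ j, ‖w j‖ ≤ M) :
    w 0 = 0 := by
  classical
  let W : Submodule ℂ (Fin m → ℂ) :=
    { carrier := {z | ∃ w : ℤ → (Fin m → ℂ), w 0 = z ∧ (∀ j, w (j + 1) = f (w j)) ∧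
        ∃ M : ℝ, ∀ j, ‖w j‖ ≤ M}
      zero_mem' := ⟨fun _ => 0, rfl, fun _ => by simp, 0, fun _ => by simp⟩
      add_mem' := by
        rintro a b ⟨w, h1, h2, M, h3⟩ ⟨w', h1', h2', M', h3'⟩
        exact ⟨fun j => w j + w' j, by simp [h1, h1'], fun j => by simp [h2, h2'], M + M',
          fun j => (norm_add_le _ _).trans (add_le_add (h3 j) (h3' j))⟩
      smul_mem' := by
        rintro c a ⟨w, h1, h2, M, h3⟩
        refine ⟨fun j => c • w j, by simp [h1], fun j => by simp [h2], ‖c‖ * M, fun j => ?_⟩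
        rw [norm_smul]
        exact mul_le_mul_of_nonneg_left (h3 j) (norm_nonneg c) }
  have hWf : ∀ z ∈ W, f z ∈ W := by
    rintro z ⟨w, h1, h2, M, h3⟩
    exact ⟨fun j => w (j + 1), (h2 0).trans (congrArg f h1), fun j => h2 (j + 1), M,
      fun j => h3 (j + 1)⟩
  by_contra hne
  have hz0 : w 0 ∈ W := ⟨w, rfl, hw, M, hM⟩
  have : Nontrivial W := ⟨⟨⟨w 0, hz0⟩, 0, fun h => hne (congrArg Subtype.val h)⟩⟩
  obtain ⟨μ, hμ⟩ := Module.End.exists_eigenvalue (K := ℂ) (V := W) (f.restrict hWf)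
  obtain ⟨v, hv⟩ := hμ.exists_hasEigenvector
  have hv0 : (v : Fin m → ℂ) ≠ 0 := fun h => hv.2 (Subtype.ext h)
  have hfv : f (v : Fin m → ℂ) = μ • (v : Fin m → ℂ) := congrArg Subtype.val hv.apply_eq_smul
  obtain ⟨u, hu0, hu, M', hM'⟩ := v.2
  have hvn : 0 < ‖(v : Fin m → ℂ)‖ := norm_pos_iff.2 hv0
  have hfwd : ∀ n : ℕ, u n = μ ^ n • (v : Fin m → ℂ) := by
    intro n
    induction n with
    | zero => simpa using hu0
    | succ n ih =>
      push_cast
      rw [hu, ih, map_smul, hfv, smul_smul, pow_succ]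
  have hb1 : ∀ n : ℕ, f (u (-(n : ℤ))) = μ • u (-(n : ℤ)) := by
    intro n
    induction n with
    | zero => simpa [hu0] using hfv
    | succ n ih =>
      apply hinj
      have h1 : f (u (-((n + 1 : ℕ) : ℤ))) = u (-(n : ℤ)) := by
        rw [← hu]
        congr 1
        push_cast
        ring
      rw [map_smul, h1, ih]
  have hb2 : ∀ n : ℕ, (v : Fin m → ℂ) = μ ^ n • u (-(n : ℤ)) := by
    intro n
    induction n with
    | zero => simp [hu0]
    | succ n ih =>
      have h1 : f (u (-((n + 1 : ℕ) : ℤ))) = u (-(n : ℤ)) := by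
        rw [← hu]
        congr 1
        push_cast
        ring
      have h2 := hb1 (n + 1)
      rw [h1] at h2
      rw [pow_succ, ← smul_smul, ← h2]
      exact ih
  have h1 : ‖μ‖ ≤ 1 := by
    by_contra hcon
    push Not at hcon
    obtain ⟨n, hn⟩ := pow_unbounded_of_one_lt (M' / ‖(v : Fin m → ℂ)‖) hcon
    have h2 := hM' n
    rw [hfwd, norm_smul, norm_pow] at h2
    rw [div_lt_iff₀ hvn] at hn
    linarith
  have h2 : 1 ≤ ‖μ‖ := by
    by_contra hcon
    push Not at hcon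
    have hM0 : 0 ≤ M' := (norm_nonneg _).trans (hM' 0)
    obtain ⟨n, hn⟩ := exists_pow_lt_of_lt_one (show 0 < ‖(v : Fin m → ℂ)‖ / (M' + 1) by positivity)
      hcon
    have h3 := congrArg norm (hb2 n)
    rw [norm_smul, norm_pow] at h3
    rw [lt_div_iff₀ (by positivity)] at hn
    have h4 : ‖μ‖ ^ n * ‖u (-(n : ℤ))‖ ≤ ‖μ‖ ^ n * (M' + 1) := by
      apply mul_le_mul_of_nonneg_left _ (by positivity)
      linarith [hM' (-(n : ℤ))]
    linarith
  exact hv0 (hf μ (le_antisymm h1 h2) _ hfv)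

/-- ZW2: a bounded two-sided orbit of a hyperbolic matrix is zero.  Let `W ⊆ ℂ^m` be the complex
subspace of all `z` for which there is a bounded sequence `w : ℤ → ℂ^m` with `w 0 = z` and
`w (j + 1) = A (w j)`; it is invariant under `A`.  If `W ≠ ⊥` the restriction of `A` to `W` has an
eigenvector `z ≠ 0`, eigenvalue `μ` (`Module.End.exists_eigenvalue`), `μ ≠ 0` as `det A` is a unit,
and its orbit `w j = μ^j z` (unique as `A` is injective, `hdet`) is bounded in both directions, so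
`‖μ‖ = 1`, and `μ` is a root of the characteristic polynomial, contradicting `hA`.  See `cf_hyp`
(To/TConjF.lean) for the passage between `ℝ` and `ℂ`. -/
theorem hyp_bdd {m : ℕ} (A : Matrix (Fin m) (Fin m) ℤ) (hdet : IsUnit A.det) (hA : HypMat A)
    (w : ℤ → (Fin m → ℝ)) (hw : ∀ j, w (j + 1) = (A.map (Int.cast : ℤ → ℝ)).mulVec (w j))
    (M : ℝ) (hM : ∀ j, ‖w j‖ ≤ M) : w 0 = 0 := by
  classical
  set B : Matrix (Fin m) (Fin m) ℂ := A.map (Int.castRingHom ℂ) with hB
  have hBdet : B.det ≠ 0 := by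
    rw [hB, ← RingHom.mapMatrix_apply, ← RingHom.map_det]
    exact (hdet.map (Int.castRingHom ℂ)).ne_zero
  have hinj : Function.Injective B.mulVecLin := by
    rw [← LinearMap.ker_eq_bot, LinearMap.ker_eq_bot']
    intro z hz
    by_contra hz0
    exact hBdet (Matrix.exists_mulVec_eq_zero_iff.1 ⟨z, hz0, hz⟩)
  have hM0 : 0 ≤ M := (norm_nonneg _).trans (hM 0)
  have key := hyp_bdd_aux B.mulVecLin hinj ?_ (fun j i => ((w j i : ℝ) : ℂ)) ?_ M ?_
  · funext i
    have := congrFun key i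
    simpa using this
  · intro μ hμ z hz
    by_contra hz0
    apply hA μ hμ
    rw [Polynomial.IsRoot, Matrix.eval_charpoly]
    rw [← Matrix.exists_mulVec_eq_zero_iff]
    refine ⟨z, hz0, ?_⟩
    rw [Matrix.sub_mulVec, sub_eq_zero]
    have h2 : (Matrix.scalar (Fin m) μ).mulVec z = μ • z := by
      funext i
      rw [Matrix.scalar_apply, Matrix.mulVec_diagonal]
      rfl
    rw [h2]
    exact hz.symm
  · intro j
    funext i
    show ((w (j + 1) i : ℝ) : ℂ) = ∑ k, B i k * ((w j k : ℝ) : ℂ)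
    have h1 : w (j + 1) i = ∑ k, (A i k : ℝ) * w j k := congrFun (hw j) i
    rw [h1]
    push_cast
    rfl
  · intro j
    rw [pi_norm_le_iff_of_nonneg hM0]
    intro i
    rw [Complex.norm_real]
    exact (norm_le_pi_norm (w j) i).trans (hM j)

end Pool.Agent.H779R2.Fi
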